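import Pool.Agent.Helper77.RL.Goals3
import Pool.Agent.Helper40.RD.TRF

/-!
# Project RL (MP_fc6b1e_nt), packet RL-INE: trivial inertia means unramified
-/

namespace Pool.Agent.Helper11.RL

open NumberField Polynomial Module IsDedekindDomain
open Pool.Agent.Helper51.RP Pool.Agent.Helper77.RL
open Pool.Agent.Helper40.RS (bel efg lies)
open Pool.Agent.Helper40.RD (ordW bel_of_above)
open scoped Pointwise

theorem x_ine : X_INE := by
  intro Y X _ _ _ _ _ _ W w hWw hin x
  obtain rfl := bel_of_above hWw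
  have hw : (bel Y W).asIdeal.IsMaximal := (bel Y W).isMaximal
  have hfin : Finite ((bel Y W).asIdeal.ResidueField) := by
    have : Finite (𝓞 Y ⧸ (bel Y W).asIdeal) :=
      Ideal.finiteQuotientOfFreeOfNeBot _ (bel Y W).ne_bot
    exact Finite.of_surjective _
      ((bel Y W).asIdeal.bijective_algebraMap_quotient_residueField).surjective
  have hperf : PerfectField ((bel Y W).asIdeal.ResidueField) := PerfectField.ofFinite
  have h1 := Ideal.card_inertia_eq_ramificationIdxIn (R := 𝓞 Y) (S := 𝓞 X) (G := X ≃ₐ[Y] X)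
    (bel Y W).asIdeal W.asIdeal
  have h2 : Nat.card (W.asIdeal.inertia (X ≃ₐ[Y] X)) = 1 := by
    rw [Nat.card_eq_one_iff_unique]
    refine ⟨⟨?_⟩, ⟨1⟩⟩
    rintro ⟨a, ha⟩ ⟨b, hb⟩
    have key : ∀ g : X ≃ₐ[Y] X, g ∈ W.asIdeal.inertia (X ≃ₐ[Y] X) → g = 1 := by
      intro g hg
      apply hin
      intro y
      have h3 : g • y - y ∈ W.asIdeal := hg y
      have h4 := (HeightOneSpectrum.valuation_lt_one_iff_mem (K := X) W (g • y - y)).2 h3
      exact h4
    rw [Subtype.mk.injEq, key a ha, key b hb]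
  rw [h2, Ideal.ramificationIdxIn_eq_ramificationIdx (bel Y W).asIdeal W.asIdeal (X ≃ₐ[Y] X)]
    at h1
  rw [ordW, Ideal.ramificationIdx'_eq_ramificationIdx _ _ (bel Y W).ne_bot, ← h1]
  simp

end Pool.Agent.Helper11.RL
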