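import Pool.Agent.Helper77.RL.Goals

/-!
# Project RL (MP_fc6b1e_nt), packet RL-POL: the operators `Q(δ)`
-/

namespace Pool.Agent.Helper11.RL

open Polynomial Pool.Agent.Helper51.RP Pool.Agent.Helper77.RL

theorem l_pol : Pool.Agent.Helper77.RL.L_POL := by
  intro p _ K M _ _ _ δ P C' Q hQ x hx
  obtain ⟨r, hr⟩ := hx
  have hdvd : (C (p : ℤ)) ∣ (Q - (1 + lift P * lift C')) := by
    rw [C_dvd_iff_dvd_coeff]
    intro i
    have h0 : (Q - (1 + lift P * lift C')).map (Int.castRingHom (ZMod p)) = 0 := by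
      rw [Polynomial.map_sub, Polynomial.map_add, Polynomial.map_mul, lift_map, lift_map, hQ,
        Polynomial.map_one, sub_self]
    have h1 := congrArg (fun f ↦ f.coeff i) h0
    simp only [coeff_map, coeff_zero, eq_intCast] at h1
    exact (ZMod.intCast_zmod_eq_zero_iff_dvd _ _).mp h1
  obtain ⟨E, hE⟩ := hdvd
  have hQ' : Q = (1 + lift C' * lift P) + C (p : ℤ) * E := by
    rw [← hE]; ring
  refine ⟨act δ (lift C') r * act δ E x, ?_⟩
  rw [hQ', act_add, act_add, act_one, act_mul, act_lift (P := P), hr, map_pow, act_mul, act_C,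
    zpow_natCast, mul_pow, mul_assoc]

end Pool.Agent.Helper11.RL
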